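import Pool.Agent.H98.FJ.P.Final

/-!
# Groups of tree automorphisms of polynomial activity and the inheritance properties of the Farrell-Jones conjecture

Let `C` be any class of groups with the inheritance properties proved for the class of groups satisfying the
A-theoretic Farrell-Jones conjecture with coefficients and finite wreath products: it contains the finite groups and
the infinite cyclic group, is closed under isomorphism, subgroups, finite direct products, finite free products,
overgroups of finite index and directed colimits, and has the extension property (a group `G` which surjects onto a group
`Q` in the class is in the class if the preimages of the virtually cyclic subgroups of `Q` are in the class). Then `C`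
contains every group of automorphisms of a rooted tree `X^*` (`X` finite) whose elements are products of automorphisms of
finite degree and of automorphisms given by finite automata of polynomial activity (of any degree).
-/

set_option autoImplicit false

namespace Pool.Agent.Results.MP_2a547c_gt.PolynomialActivity

open Pool.Agent.H98.FJ

theorem result (C : (G : Type) → [Group G] → Prop) (hC : Inherits C) (hE : Extension C)
    (X : Type) [Finite X] (H : Subgroup (TreeAut X))
    (hH : H ≤ Subgroup.closure
      {g : TreeAut X | (∃ d, OfDegree d g) ∨ (FiniteState g ∧ PolynomialActivity g)}) :
    C H :=
  mem_of_poly hC hE H hH

end Pool.Agent.Results.MP_2a547c_gt.PolynomialActivity
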